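import Pool.Agent.H21.L.R_seed8.W353.TP.Gram
import Pool.Agent.H21.L.R_seed8.H126T.Final

/-! Cauchy's inequality at the edge, and passage to the limit. -/

set_option autoImplicit false

namespace Pool.Agent.W353.TP

open Complex Filter Topology ComplexConjugate Pool.Agent.H341R2 Asymptotics
open Pool.Agent.H126T (log_inv_tendsto)

section
variable (S : NormSys)

theorem abs_E_le {ε : ℝ} (hε : 0 < ε) {φ : S.X → ℝ} {B : ℝ} (hφ : ∀ p, |φ p| ≤ B) :
    |S.E ε φ| ≤ S.E ε (fun p => |φ p|) := by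
  have h1 := (S.summable_E hε hφ)
  unfold NormSys.E
  refine (norm_tsum_le_tsum_norm h1.norm).trans (le_of_eq ?_)
  refine tsum_congr fun p => ?_
  rw [Real.norm_eq_abs, abs_mul, abs_of_nonneg (S.w_nonneg ε p)]

theorem E_mono {ε : ℝ} (hε : 0 < ε) {φ ψ : S.X → ℝ} {B B' : ℝ} (hφ : ∀ p, |φ p| ≤ B)
    (hψ : ∀ p, |ψ p| ≤ B') (h : ∀ p, φ p ≤ ψ p) : S.E ε φ ≤ S.E ε ψ := by
  refine (S.summable_E hε hφ).tsum_le_tsum (fun p => ?_) (S.summable_E hε hψ)
  exact mul_le_mul_of_nonneg_right (h p) (S.w_nonneg ε p)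

theorem lam_nonneg (ε : ℝ) : 0 ≤ S.lam ε := tsum_nonneg fun p => S.w_nonneg ε p

/-- Cauchy's inequality for the weighted sums -/
theorem sq_E_le {ε : ℝ} (hε : 0 < ε) {φ : S.X → ℝ} {B : ℝ} (hφ : ∀ p, |φ p| ≤ B) :
    (S.E ε φ) ^ 2 ≤ S.lam ε * S.E ε (fun p => (φ p) ^ 2) := by
  have hlam := lam_nonneg S ε
  have hsq : ∀ p, |(φ p) ^ 2| ≤ B ^ 2 := by
    intro p
    rw [abs_pow]
    exact pow_le_pow_left₀ (abs_nonneg _) (hφ p) 2
  -- the quadratic `E((φ - t)²) ≥ 0`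
  have hq : ∀ t : ℝ, 0 ≤ S.E ε (fun p => (φ p) ^ 2) + (-(2 * t)) * S.E ε φ + t ^ 2 * S.lam ε := by
    intro t
    have h0 : 0 ≤ S.E ε (fun p => (φ p - t) ^ 2) := S.E_nonneg fun p => sq_nonneg _
    have hb1 : ∀ p, |(-(2 * t)) * φ p| ≤ |2 * t| * B := by
      intro p
      rw [abs_mul, abs_neg]
      exact mul_le_mul_of_nonneg_left (hφ p) (abs_nonneg _)
    have hb2 : ∀ p : S.X, |t ^ 2 * (1 : ℝ)| ≤ t ^ 2 := by
      intro p
      rw [mul_one, abs_of_nonneg (sq_nonneg t)]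
    have hb3 : ∀ p, |(φ p) ^ 2 + (-(2 * t)) * φ p| ≤ B ^ 2 + |2 * t| * B := fun p =>
      (abs_add_le _ _).trans (add_le_add (hsq p) (hb1 p))
    have e : (fun p => (φ p - t) ^ 2) =
        fun p => ((φ p) ^ 2 + (-(2 * t)) * φ p) + t ^ 2 * (1 : ℝ) := by
      funext p
      ring
    rw [e, S.E_add hε hb3 hb2, S.E_add hε hsq hb1, S.E_const_mul, S.E_const_mul] at h0
    have e2 : S.E ε (fun _ => (1 : ℝ)) = S.lam ε := by
      unfold NormSys.E NormSys.lam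
      exact tsum_congr fun p => one_mul _
    rw [e2] at h0
    exact h0
  rcases hlam.eq_or_lt with h | h
  · -- `lam = 0` forces `E φ = 0`
    have hE : S.E ε φ = 0 := by
      by_contra hne
      have h1 := hq ((S.E ε (fun p => (φ p) ^ 2) + 1) / (2 * S.E ε φ))
      rw [← h] at h1
      have h2 : (-(2 * ((S.E ε (fun p => (φ p) ^ 2) + 1) / (2 * S.E ε φ)))) * S.E ε φ =
          -(S.E ε (fun p => (φ p) ^ 2) + 1) := by
        field_simp
      rw [h2] at h1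
      linarith
    rw [hE, ← h]
    simp
  · have h1 := hq (S.E ε φ / S.lam ε)
    have h2 : S.E ε (fun p => (φ p) ^ 2) + (-(2 * (S.E ε φ / S.lam ε))) * S.E ε φ +
        (S.E ε φ / S.lam ε) ^ 2 * S.lam ε =
        S.E ε (fun p => (φ p) ^ 2) - (S.E ε φ) ^ 2 / S.lam ε := by
      field_simp
      ring
    rw [h2] at h1
    have h3 : (S.E ε φ) ^ 2 / S.lam ε ≤ S.E ε (fun p => (φ p) ^ 2) := by linarith
    rw [div_le_iff₀ h] at h3
    linarith

/-- Cauchy's inequality for several correlations -/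
theorem corr_sq_le {J : Type*} (P : Finset J) (t W : J → S.X → ℂ) (b : J → ℝ) (w : J → ℝ)
    (hb0 : ∀ j ∈ P, 0 ≤ b j) (ht : ∀ j ∈ P, ∀ p, ‖t j p‖ ≤ b j) (hW : ∀ j ∈ P, ∀ p, ‖W j p‖ ≤ w j)
    {ε : ℝ} (hε : 0 < ε) :
    (∑ j ∈ P, S.E ε fun p => (t j p * conj (W j p)).re) ^ 2 ≤
      (∑ j ∈ P, b j) * (S.lam ε * ∑ j ∈ P, b j * S.E ε fun p => ‖W j p‖ ^ 2) := by
  have hn : ∀ j ∈ P, ∀ p, |‖W j p‖| ≤ w j := fun j hj p => by
    rw [abs_of_nonneg (norm_nonneg _)]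
    exact hW j hj p
  have h1 : ∀ j ∈ P, |S.E ε fun p => (t j p * conj (W j p)).re| ≤
      b j * S.E ε fun p => ‖W j p‖ := by
    intro j hj
    have hb1 : ∀ p, |(t j p * conj (W j p)).re| ≤ b j * ‖W j p‖ := by
      intro p
      refine (Complex.abs_re_le_norm _).trans ?_
      rw [norm_mul, Complex.norm_conj]
      exact mul_le_mul_of_nonneg_right (ht j hj p) (norm_nonneg _)
    have hb2 : ∀ p, |(t j p * conj (W j p)).re| ≤ b j * w j := fun p =>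
      (hb1 p).trans (mul_le_mul_of_nonneg_left (hW j hj p) (hb0 j hj))
    refine (abs_E_le S hε hb2).trans ?_
    rw [← S.E_const_mul]
    refine E_mono S hε (B := b j * w j) (B' := b j * w j) (fun p => by rw [abs_abs]; exact hb2 p)
      (fun p => ?_) hb1
    rw [abs_mul, abs_of_nonneg (hb0 j hj), abs_of_nonneg (norm_nonneg _)]
    exact mul_le_mul_of_nonneg_left (hW j hj p) (hb0 j hj)
  have h2 : |∑ j ∈ P, S.E ε fun p => (t j p * conj (W j p)).re| ≤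
      ∑ j ∈ P, b j * S.E ε fun p => ‖W j p‖ :=
    (Finset.abs_sum_le_sum_abs _ _).trans (Finset.sum_le_sum h1)
  have h3 : (∑ j ∈ P, S.E ε fun p => (t j p * conj (W j p)).re) ^ 2 ≤
      (∑ j ∈ P, b j * S.E ε fun p => ‖W j p‖) ^ 2 := by
    rw [← sq_abs]
    exact pow_le_pow_left₀ (abs_nonneg _) h2 2
  refine h3.trans ?_
  have h4 : (∑ j ∈ P, b j * S.E ε fun p => ‖W j p‖) ^ 2 ≤
      (∑ j ∈ P, b j) * ∑ j ∈ P, b j * (S.E ε fun p => ‖W j p‖) ^ 2 := by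
    have h5 := Finset.sum_mul_sq_le_sq_mul_sq P (fun j => Real.sqrt (b j))
      (fun j => Real.sqrt (b j) * S.E ε fun p => ‖W j p‖)
    have e1 : ∑ j ∈ P, Real.sqrt (b j) * (Real.sqrt (b j) * S.E ε fun p => ‖W j p‖) =
        ∑ j ∈ P, b j * S.E ε fun p => ‖W j p‖ := by
      refine Finset.sum_congr rfl fun j hj => ?_
      rw [← mul_assoc, Real.mul_self_sqrt (hb0 j hj)]
    have e2 : ∑ j ∈ P, Real.sqrt (b j) ^ 2 = ∑ j ∈ P, b j :=
      Finset.sum_congr rfl fun j hj => Real.sq_sqrt (hb0 j hj)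
    have e3 : ∑ j ∈ P, (Real.sqrt (b j) * S.E ε fun p => ‖W j p‖) ^ 2 =
        ∑ j ∈ P, b j * (S.E ε fun p => ‖W j p‖) ^ 2 := by
      refine Finset.sum_congr rfl fun j hj => ?_
      rw [mul_pow, Real.sq_sqrt (hb0 j hj)]
    rw [e1, e2, e3] at h5
    exact h5
  refine h4.trans ?_
  refine mul_le_mul_of_nonneg_left ?_ (Finset.sum_nonneg hb0)
  rw [Finset.mul_sum]
  refine Finset.sum_le_sum fun j hj => ?_
  have h6 := sq_E_le S hε (hn j hj)
  calc b j * (S.E ε fun p => ‖W j p‖) ^ 2 ≤ b j * (S.lam ε * S.E ε fun p => ‖W j p‖ ^ 2) :=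
        mul_le_mul_of_nonneg_left h6 (hb0 j hj)
    _ = S.lam ε * (b j * S.E ε fun p => ‖W j p‖ ^ 2) := by ring

/-- expansion of the mean square of a linear combination -/
theorem E_norm_sq {κ : Type*} (T : Finset κ) (c : κ → ℝ) (v : κ → S.X → ℂ) (B : κ → ℝ)
    (hv : ∀ k ∈ T, ∀ p, ‖v k p‖ ≤ B k) {ε : ℝ} (hε : 0 < ε) :
    (S.E ε fun p => ‖∑ k ∈ T, (c k : ℂ) * v k p‖ ^ 2) =
      ∑ k ∈ T, ∑ l ∈ T, (c k * c l) * S.E ε fun p => (v k p * conj (v l p)).re := by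
  have e5 : ∀ p, ‖∑ k ∈ T, (c k : ℂ) * v k p‖ ^ 2 =
      ∑ k ∈ T, ∑ l ∈ T, (c k * c l) * (v k p * conj (v l p)).re := by
    intro p
    have e1 : ‖∑ k ∈ T, (c k : ℂ) * v k p‖ ^ 2 =
        ((∑ k ∈ T, (c k : ℂ) * v k p) * conj (∑ k ∈ T, (c k : ℂ) * v k p)).re := by
      rw [Complex.mul_conj, Complex.ofReal_re, Complex.normSq_eq_norm_sq]
    rw [e1, map_sum, Finset.sum_mul_sum, Complex.re_sum]
    refine Finset.sum_congr rfl fun k _ => ?_
    rw [Complex.re_sum]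
    refine Finset.sum_congr rfl fun l _ => ?_
    rw [map_mul, Complex.conj_ofReal]
    have : (c k : ℂ) * v k p * ((c l : ℂ) * conj (v l p)) =
        ((c k * c l : ℝ) : ℂ) * (v k p * conj (v l p)) := by
      push_cast; ring
    rw [this, Complex.re_ofReal_mul]
  have hb : ∀ k ∈ T, ∀ l ∈ T, ∀ p, |(c k * c l) * (v k p * conj (v l p)).re| ≤
      |c k * c l| * (B k * B l) := by
    intro k hk l hl p
    rw [abs_mul]
    refine mul_le_mul_of_nonneg_left ?_ (abs_nonneg _)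
    refine (Complex.abs_re_le_norm _).trans ?_
    rw [norm_mul, Complex.norm_conj]
    exact mul_le_mul (hv k hk p) (hv l hl p) (norm_nonneg _)
      ((norm_nonneg _).trans (hv k hk p))
  rw [funext e5, S.E_sum hε T _ (fun k => ∑ l ∈ T, |c k * c l| * (B k * B l))]
  · refine Finset.sum_congr rfl fun k hk => ?_
    rw [S.E_sum hε T _ (fun l => |c k * c l| * (B k * B l)) (fun l hl p => hb k hk l hl p)]
    refine Finset.sum_congr rfl fun l _ => ?_
    rw [S.E_const_mul]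
  · intro k hk p
    exact (Finset.abs_sum_le_sum_abs _ _).trans (Finset.sum_le_sum fun l hl => hb k hk l hl p)

end

/-- the scale `log (1/ε)` -/
noncomputable def LL (ε : ℝ) : ℝ := Real.log (1 / ε)

theorem LL_tendsto : Tendsto LL (𝓝[>] 0) atTop := log_inv_tendsto

theorem bdd_isLittleO {u : ℝ → ℝ} (h : ∃ C : ℝ, ∀ᶠ ε : ℝ in 𝓝[>] 0, |u ε| ≤ C) :
    u =o[𝓝[>] 0] LL := by
  obtain ⟨C, hC⟩ := h
  have h1 : u =O[𝓝[>] 0] (fun _ => (1 : ℝ)) := by
    refine IsBigO.of_bound C ?_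
    filter_upwards [hC] with ε hε
    simpa using hε
  have h2 : (fun _ : ℝ => (1 : ℝ)) =o[𝓝[>] 0] LL :=
    isLittleO_const_left.2 (Or.inr (tendsto_norm_atTop_atTop.comp LL_tendsto))
  exact h1.trans_isLittleO h2

theorem lamS_sub (S : NormSys) : (fun ε => S.lam ε - LL ε) =o[𝓝[>] 0] LL := by
  apply bdd_isLittleO
  obtain ⟨C, hC⟩ := S.lam_bounded
  refine ⟨C, ?_⟩
  filter_upwards [hC] with ε h
  have : LL ε = -Real.log ε := by unfold LL; rw [one_div, Real.log_inv]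
  rwa [this, sub_neg_eq_add]

theorem lamS_isBigO (S : NormSys) : S.lam =O[𝓝[>] 0] LL := by
  have h := (lamS_sub S).isBigO.add (isBigO_refl LL (𝓝[>] 0))
  refine h.congr_left fun ε => ?_
  ring

theorem lam0_sub : (fun ε => lam ε - LL ε) =o[𝓝[>] 0] LL := by
  apply bdd_isLittleO
  obtain ⟨C, hC⟩ := lam_bounded
  refine ⟨C, ?_⟩
  filter_upwards [hC] with ε h
  have : LL ε = -Real.log ε := by unfold LL; rw [one_div, Real.log_inv]
  rwa [this, sub_neg_eq_add]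

theorem lam0_isBigO : lam =O[𝓝[>] 0] LL := by
  have h := lam0_sub.isBigO.add (isBigO_refl LL (𝓝[>] 0))
  refine h.congr_left fun ε => ?_
  ring

theorem pnegl_isLittleO {φ : Nat.Primes → ℝ} (h : PNegl φ) :
    (fun ε => E ε φ) =o[𝓝[>] 0] LL := by
  have h1 : (fun ε => E ε φ) =o[𝓝[>] 0] lam := by
    rw [isLittleO_iff]
    intro c hc
    filter_upwards [h c hc, lam_tendsto.eventually_ge_atTop 0] with ε h1 h2
    rw [Real.norm_eq_abs, Real.norm_eq_abs, abs_of_nonneg h2]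
    exact h1
  exact h1.trans_isBigO lam0_isBigO

theorem small_isLittleO (S : NormSys) {u : ℝ → ℝ}
    (h : ∀ η : ℝ, 0 < η → ∀ᶠ ε : ℝ in 𝓝[>] 0, |u ε| ≤ η * S.lam ε) :
    u =o[𝓝[>] 0] LL := by
  have h1 : u =o[𝓝[>] 0] S.lam := by
    rw [isLittleO_iff]
    intro c hc
    filter_upwards [h c hc, S.lam_tendsto.eventually_ge_atTop 0] with ε h1 h2
    rw [Real.norm_eq_abs, Real.norm_eq_abs, abs_of_nonneg h2]
    exact h1
  exact h1.trans_isBigO (lamS_isBigO S)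

/-- the final limit argument -/
theorem final_ineq {z Y A Q : ℝ → ℝ} {B G : ℝ} (h1 : (fun ε => z ε - Y ε) =o[𝓝[>] 0] LL)
    (h2 : ∀ᶠ ε : ℝ in 𝓝[>] 0, Y ε ^ 2 ≤ B * (A ε * Q ε))
    (hA : (fun ε => A ε - LL ε) =o[𝓝[>] 0] LL) (hQ : (fun ε => Q ε - G * LL ε) =o[𝓝[>] 0] LL)
    {η : ℝ} (hη : 0 < η) : ∀ᶠ ε : ℝ in 𝓝[>] 0, (z ε / LL ε) ^ 2 ≤ B * G + η := by
  have hL0 : ∀ᶠ ε : ℝ in 𝓝[>] 0, 0 < LL ε := LL_tendsto.eventually_gt_atTop 0
  have t1 : Tendsto (fun ε => (z ε - Y ε) / LL ε) (𝓝[>] 0) (𝓝 0) := h1.tendsto_div_nhds_zero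
  have t2 : Tendsto (fun ε => A ε / LL ε) (𝓝[>] 0) (𝓝 1) := by
    have := hA.tendsto_div_nhds_zero.add_const 1
    rw [zero_add] at this
    refine this.congr' ?_
    filter_upwards [hL0] with ε h
    field_simp
    ring
  have t3 : Tendsto (fun ε => Q ε / LL ε) (𝓝[>] 0) (𝓝 G) := by
    have := hQ.tendsto_div_nhds_zero.add_const G
    rw [zero_add] at this
    refine this.congr' ?_
    filter_upwards [hL0] with ε h
    field_simp
    ring
  have t4 : Tendsto (fun ε => B * (A ε / LL ε * (Q ε / LL ε))) (𝓝[>] 0) (𝓝 (B * (1 * G))) :=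
    (t2.mul t3).const_mul B
  rw [one_mul] at t4
  have h3 : ∀ᶠ ε : ℝ in 𝓝[>] 0, (Y ε / LL ε) ^ 2 ≤ B * (A ε / LL ε * (Q ε / LL ε)) := by
    filter_upwards [h2, hL0] with ε h hL
    have e1 : B * (A ε / LL ε * (Q ε / LL ε)) = B * (A ε * Q ε) / LL ε ^ 2 := by
      field_simp
    rw [e1, div_pow]
    exact div_le_div_of_nonneg_right h (by positivity)
  have h4 : ∀ᶠ ε : ℝ in 𝓝[>] 0, (Y ε / LL ε) ^ 2 ≤ B * G + η / 2 := by
    filter_upwards [h3, t4.eventually_lt_const (by linarith : B * G < B * G + η / 2)] with ε h5 h6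
    linarith
  -- `(y + δ)² ≤ y² + |δ| (2 C + 1)`
  set C : ℝ := |B * G + η / 2| + 1 with hC
  have hC0 : 0 < C := by positivity
  have h5 : ∀ᶠ ε : ℝ in 𝓝[>] 0, |(z ε - Y ε) / LL ε| ≤ min 1 (η / 2 / (2 * C + 1)) := by
    have := t1.abs
    rw [abs_zero] at this
    filter_upwards [this.eventually_lt_const (lt_min one_pos (by positivity :
      0 < η / 2 / (2 * C + 1)))] with ε h
    exact h.le
  filter_upwards [h4, h5, hL0] with ε h6 h7 hL
  set y := Y ε / LL ε with hy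
  set δ := (z ε - Y ε) / LL ε with hδ
  have e1 : z ε / LL ε = y + δ := by
    rw [hy, hδ, sub_div]
    ring
  rw [e1]
  have hyC : |y| ≤ C := by
    have h8 : y ^ 2 ≤ |B * G + η / 2| := h6.trans (le_abs_self _)
    have h9 : |y| ^ 2 ≤ |B * G + η / 2| := by rwa [sq_abs]
    have h10 : 0 ≤ |B * G + η / 2| := abs_nonneg _
    rw [hC]
    nlinarith [abs_nonneg y]
  have hδ1 : |δ| ≤ 1 := h7.trans (min_le_left _ _)
  have hδ2 : |δ| * (2 * C + 1) ≤ η / 2 := by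
    have := h7.trans (min_le_right _ _)
    rwa [le_div_iff₀ (by positivity)] at this
  have e2 : (y + δ) ^ 2 = y ^ 2 + δ * (2 * y + δ) := by ring
  rw [e2]
  have e3 : δ * (2 * y + δ) ≤ |δ| * (2 * C + 1) := by
    refine (le_abs_self _).trans ?_
    rw [abs_mul]
    refine mul_le_mul_of_nonneg_left ?_ (abs_nonneg _)
    refine (abs_add_le _ _).trans ?_
    rw [abs_mul, abs_two]
    linarith
  linarith

end Pool.Agent.W353.TP
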