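import Pool.Agent.H21.L.R_seed8.W353.TP.Transfer

/-! The Bessel inequality for the pole orders over all finite extensions. -/

set_option autoImplicit false

namespace Pool.Agent.W353.TP

open Complex Filter Topology ComplexConjugate NumberField IsDedekindDomain Pool.Agent.H341R2
  Asymptotics Polynomial
open Pool.Agent.H921R2.TatePole (nm two_le_nm R hc R_eq_hc R_le kerPrime hom_finite C0)
open Pool.Agent.H126T (pairs bb bb_pos tt ww norm_tt norm_ww Sv Gd aa L2 L2_log mean_aa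
  order_limit)

theorem fsum_isLittleO {ι : Type*} (s : Finset ι) {u : ι → ℝ → ℝ}
    (h : ∀ i ∈ s, u i =o[𝓝[>] 0] LL) : (fun ε => ∑ i ∈ s, u i ε) =o[𝓝[>] 0] LL := by
  have := IsLittleO.sum h
  refine this.congr_left fun ε => ?_
  rw [Finset.sum_apply]

section
variable {K F : Type} [Field K] [NumberField K] [Field F] [NumberField F] [Algebra K F]

/-- the size of one `L`-function -/
theorem one_log {r : ℕ} {f : Fin r → (𝓞 K)[X]} (hodd : ∀ i, Odd (f i).natDegree)
    (h3 : ∀ i, 3 ≤ (f i).natDegree) {d : Fin r → 𝓞 F} {S : Finset (HeightOneSpectrum (𝓞 F))}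
    (hS : ∀ v, v ∉ S → Gd (bc F f) d v) (B : HeightOneSpectrum (𝓞 F) → ℂ[X]) (τ : ℝ)
    (hB : ∀ v ∈ S, (B v).eval (((nm v : ℕ) : ℂ) ^ (-((2 : ℂ) + τ * I))) ≠ 0) :
    (∀ᶠ ε : ℝ in 𝓝[>] 0, L2 (bc F f) d S B (2 + τ * I + ε) ≠ 0) ∧
    (fun ε : ℝ => Real.log ‖L2 (bc F f) d S B (2 + τ * I + ε)‖ -
      (if τ = 0 then (r : ℝ) else 0) * LL ε - ∑ j ∈ pairs r,
        (sysH K).E ε fun x : HX K => (ttH f j x * conj (vv K d τ j x)).re) =o[𝓝[>] 0] LL := by
  have hodd' : ∀ i, Odd (bc F f i).natDegree := fun i => by rw [bc_natDegree]; exact hodd i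
  have h3' : ∀ i, 3 ≤ (bc F f i).natDegree := fun i => by rw [bc_natDegree]; exact h3 i
  obtain ⟨C', hC'⟩ := L2_log hodd' h3' hS B τ hB
  refine ⟨hC'.mono fun ε h => h.1, ?_⟩
  have o1 : (fun ε : ℝ => (sysK F).E ε (fun v => (aa (bc F f) d S τ v).re) -
      Real.log ‖L2 (bc F f) d S B (2 + τ * I + ε)‖) =o[𝓝[>] 0] LL :=
    bdd_isLittleO ⟨C', hC'.mono fun ε h => h.2⟩
  have o2 := small_isLittleO (sysK F) (u := fun ε => (sysK F).E ε
      (fun v => (aa (bc F f) d S τ v).re) - (if τ = 0 then (r : ℝ) else 0) * (sysK F).lam ε -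
      ∑ p ∈ pairs r, (sysK F).E ε fun v => (tt (bc F f) p v * conj (ww d τ p v)).re)
      (fun η hη => mean_aa hodd' h3' hS τ hη)
  have o3 : (fun ε => (if τ = 0 then (r : ℝ) else 0) * ((sysK F).lam ε - LL ε)) =o[𝓝[>] 0] LL :=
    (lamS_sub (sysK F)).const_mul_left _
  have o4 : (fun ε => ∑ j ∈ pairs r, (((sysK F).E ε fun v =>
      (tt (bc F f) j v * conj (ww d τ j v)).re) -
      (sysH K).E ε fun x : HX K => (ttH f j x * conj (vv K d τ j x)).re)) =o[𝓝[>] 0] LL :=
    fsum_isLittleO _ fun j _ => corr_transfer hodd h3 d τ j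
  refine (((o2.sub o1).add o3).add o4).congr_left fun ε => ?_
  rw [Finset.sum_sub_distrib]
  ring

end

section
variable {K : Type} [Field K] [NumberField K]

/-- the entries of the Gram matrix -/
noncomputable def Gm {r : ℕ} (f : Fin r → (𝓞 K)[X]) {κ : Type} (F : κ → Type)
    [∀ k, Field (F k)] [∀ k, NumberField (F k)] [∀ k, Algebra K (F k)]
    (d : ∀ k, Fin r → 𝓞 (F k)) (τ : κ → ℝ) (k l : κ) : ℝ := by
  classical
  exact ∑ j ∈ pairs r, bb f j * (if τ k = τ l then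
    (inum K (F k) (F l) ((d k j.1 * d k j.2 : 𝓞 (F k)) : F k)
      ((d l j.1 * d l j.2 : 𝓞 (F l)) : F l) : ℝ) else 0)

/-- **The main inequality, without continuation.** -/
theorem main_ineq {r : ℕ} {f : Fin r → (𝓞 K)[X]} (hodd : ∀ i, Odd (f i).natDegree)
    (h3 : ∀ i, 3 ≤ (f i).natDegree) {κ : Type} (T : Finset κ) (F : κ → Type)
    [∀ k, Field (F k)] [∀ k, NumberField (F k)] [∀ k, Algebra K (F k)]
    (d : ∀ k, Fin r → 𝓞 (F k)) (τ : κ → ℝ) (hd0 : ∀ k ∈ T, ∀ i, d k i ≠ 0)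
    (S : ∀ k, Finset (HeightOneSpectrum (𝓞 (F k))))
    (hS : ∀ k ∈ T, ∀ v, v ∉ S k → Gd (bc (F k) f) (d k) v)
    (B : ∀ k, HeightOneSpectrum (𝓞 (F k)) → ℂ[X])
    (hB : ∀ k ∈ T, ∀ v ∈ S k, (B k v).eval (((nm v : ℕ) : ℂ) ^ (-((2 : ℂ) + τ k * I))) ≠ 0)
    (c : κ → ℝ) {η : ℝ} (hη : 0 < η) :
    ∀ᶠ ε : ℝ in 𝓝[>] 0,
      (∑ k ∈ T, c k * (Real.log ‖L2 (bc (F k) f) (d k) (S k) (B k) (2 + τ k * I + ε)‖ /
        Real.log (1 / ε) - if τ k = 0 then (r : ℝ) else 0)) ^ 2 ≤
        (∑ j ∈ pairs r, bb f j) * (∑ k ∈ T, ∑ l ∈ T, c k * c l * Gm f F d τ k l) + η := by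
  classical
  set Xk : κ → ℝ → ℝ := fun k ε =>
    Real.log ‖L2 (bc (F k) f) (d k) (S k) (B k) (2 + τ k * I + ε)‖ with hXk
  set rk : κ → ℝ := fun k => if τ k = 0 then (r : ℝ) else 0 with hrk
  set H : κ → Fin r × Fin r → ℝ → ℝ := fun k j ε =>
    (sysH K).E ε fun x : HX K => (ttH f j x * conj (vv K (d k) (τ k) j x)).re with hH
  set W : Fin r × Fin r → (sysH K).X → ℂ := fun j x =>
    ∑ k ∈ T, (c k : ℂ) * vv K (d k) (τ k) j x with hW
  set Y : ℝ → ℝ := fun ε => ∑ j ∈ pairs r,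
    (sysH K).E ε fun x : HX K => (ttH f j x * conj (W j x)).re with hY
  have hvb : ∀ k ∈ T, ∀ (j : Fin r × Fin r) (x : HX K), ‖vv K (d k) (τ k) j x‖ ≤
      Module.finrank ℚ (F k) := fun k _ j x => norm_vv (d k) (τ k) j x
  have hWb : ∀ (j : Fin r × Fin r) (x : HX K), ‖W j x‖ ≤
      ∑ k ∈ T, |c k| * Module.finrank ℚ (F k) := by
    intro j x
    refine (norm_sum_le _ _).trans (Finset.sum_le_sum fun k hk => ?_)
    rw [norm_mul, Complex.norm_real, Real.norm_eq_abs]
    exact mul_le_mul_of_nonneg_left (hvb k hk j x) (abs_nonneg _)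
  -- linearity
  have hYlin : ∀ ε : ℝ, 0 < ε → Y ε = ∑ k ∈ T, c k * ∑ j ∈ pairs r, H k j ε := by
    intro ε hε
    have e1 : ∀ j ∈ pairs r, ((sysH K).E ε fun x : HX K => (ttH f j x * conj (W j x)).re) =
        ∑ k ∈ T, c k * H k j ε := by
      intro j _
      have e2 : (fun x : HX K => (ttH f j x * conj (W j x)).re) =
          fun x : HX K => ∑ k ∈ T, c k * (ttH f j x * conj (vv K (d k) (τ k) j x)).re := by
        funext x
        rw [hW]
        simp only
        rw [map_sum, Finset.mul_sum, Complex.re_sum]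
        refine Finset.sum_congr rfl fun k _ => ?_
        rw [map_mul, Complex.conj_ofReal, mul_left_comm, Complex.re_ofReal_mul]
      have e3 := (sysH K).E_sum hε T (fun k (x : HX K) =>
        c k * (ttH f j x * conj (vv K (d k) (τ k) j x)).re)
        (fun k => |c k| * (bb f j * Module.finrank ℚ (F k))) (by
          intro k hk x
          rw [abs_mul]
          refine mul_le_mul_of_nonneg_left ?_ (abs_nonneg _)
          refine (Complex.abs_re_le_norm _).trans ?_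
          rw [norm_mul, Complex.norm_conj]
          exact mul_le_mul (norm_ttH hodd h3 j x) (hvb k hk j x) (norm_nonneg _)
            (bb_pos h3 j).le)
      have e4 : ((sysH K).E ε fun x : HX K => (ttH f j x * conj (W j x)).re) =
          (sysH K).E ε fun x : HX K => ∑ k ∈ T, c k *
            (ttH f j x * conj (vv K (d k) (τ k) j x)).re := congrArg ((sysH K).E ε) e2
      rw [e4]
      refine e3.trans ?_
      refine Finset.sum_congr rfl fun k _ => ?_
      exact (sysH K).E_const_mul _ _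
    rw [hY]
    simp only
    rw [Finset.sum_congr rfl e1, Finset.sum_comm]
    refine Finset.sum_congr rfl fun k _ => ?_
    rw [Finset.mul_sum]
  set z : ℝ → ℝ := fun ε => ∑ k ∈ T, c k * (Xk k ε - rk k * LL ε) with hz
  have o1 : (fun ε => z ε - Y ε) =o[𝓝[>] 0] LL := by
    have o2 : (fun ε => ∑ k ∈ T, c k * (Xk k ε - rk k * LL ε - ∑ j ∈ pairs r, H k j ε))
        =o[𝓝[>] 0] LL := by
      refine fsum_isLittleO _ fun k hk => IsLittleO.const_mul_left ?_ _
      exact (one_log hodd h3 (hS k hk) (B k) (τ k) (hB k hk)).2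
    refine o2.congr' ?_ (EventuallyEq.refl _ _)
    filter_upwards [self_mem_nhdsWithin] with ε hε
    rw [hYlin ε hε, hz]
    simp only
    rw [← Finset.sum_sub_distrib]
    refine Finset.sum_congr rfl fun k _ => ?_
    ring
  -- the Gram matrix
  set Q : ℝ → ℝ := fun ε => ∑ j ∈ pairs r, bb f j * (sysH K).E ε fun x => ‖W j x‖ ^ 2 with hQ
  set G : ℝ := ∑ k ∈ T, ∑ l ∈ T, c k * c l * Gm f F d τ k l with hG
  have o3 : (fun ε => Q ε - G * LL ε) =o[𝓝[>] 0] LL := by
    have o4 : (fun ε => ∑ j ∈ pairs r, bb f j * ∑ k ∈ T, ∑ l ∈ T, (c k * c l) *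
        (((sysH K).E ε fun x : HX K => (vv K (d k) (τ k) j x *
          conj (vv K (d l) (τ l) j x)).re) -
        (if τ k = τ l then (inum K (F k) (F l) ((d k j.1 * d k j.2 : 𝓞 (F k)) : F k)
          ((d l j.1 * d l j.2 : 𝓞 (F l)) : F l) : ℝ) else 0) * LL ε)) =o[𝓝[>] 0] LL := by
      refine fsum_isLittleO _ fun j _ => IsLittleO.const_mul_left ?_ _
      refine fsum_isLittleO _ fun k hk => fsum_isLittleO _ fun l hl => IsLittleO.const_mul_left ?_ _
      exact gram_H (hd0 k hk) (hd0 l hl) (τ k) (τ l) j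
    refine o4.congr' ?_ (EventuallyEq.refl _ _)
    filter_upwards [self_mem_nhdsWithin] with ε hε
    have hε' : (0 : ℝ) < ε := hε
    have e1 : ∀ j, ((sysH K).E ε fun x => ‖W j x‖ ^ 2) = ∑ k ∈ T, ∑ l ∈ T, (c k * c l) *
        (sysH K).E ε fun x : HX K => (vv K (d k) (τ k) j x * conj (vv K (d l) (τ l) j x)).re := by
      intro j
      exact E_norm_sq (sysH K) T c (fun k => vv K (d k) (τ k) j)
        (fun k => Module.finrank ℚ (F k)) (fun k hk x => hvb k hk j x) hε'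
    have e2 : G = ∑ j ∈ pairs r, bb f j * ∑ k ∈ T, ∑ l ∈ T, (c k * c l) *
        (if τ k = τ l then (inum K (F k) (F l) ((d k j.1 * d k j.2 : 𝓞 (F k)) : F k)
          ((d l j.1 * d l j.2 : 𝓞 (F l)) : F l) : ℝ) else 0) := by
      rw [hG]
      simp only [Finset.mul_sum]
      rw [Finset.sum_comm' (s := pairs r) (t := fun _ => T) (t' := T) (s' := fun _ => pairs r)
        (by tauto)]
      refine Finset.sum_congr rfl fun k _ => ?_
      rw [Finset.sum_comm' (s := pairs r) (t := fun _ => T) (t' := T) (s' := fun _ => pairs r)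
        (by tauto)]
      refine Finset.sum_congr rfl fun l _ => ?_
      unfold Gm
      rw [Finset.mul_sum]
      refine Finset.sum_congr rfl fun j _ => ?_
      ring
    rw [hQ, e2, Finset.sum_mul]
    simp only
    rw [← Finset.sum_sub_distrib]
    refine Finset.sum_congr rfl fun j _ => ?_
    rw [e1 j, mul_assoc, ← mul_sub, Finset.sum_mul, ← Finset.sum_sub_distrib]
    congr 1
    refine Finset.sum_congr rfl fun k _ => ?_
    rw [Finset.sum_mul, ← Finset.sum_sub_distrib]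
    refine Finset.sum_congr rfl fun l _ => ?_
    ring
  have h2 : ∀ᶠ ε : ℝ in 𝓝[>] 0, Y ε ^ 2 ≤ (∑ j ∈ pairs r, bb f j) * ((sysH K).lam ε * Q ε) := by
    filter_upwards [self_mem_nhdsWithin] with ε hε
    exact corr_sq_le (sysH K) (pairs r) (ttH f) W (bb f)
      (fun _ => ∑ k ∈ T, |c k| * Module.finrank ℚ (F k)) (fun j _ => (bb_pos h3 j).le)
      (fun j _ x => norm_ttH hodd h3 j x) (fun j _ x => hWb j x) hε
  have h := final_ineq o1 h2 (lamS_sub (sysH K)) o3 hη
  filter_upwards [h, LL_tendsto.eventually_gt_atTop 0] with ε h5 h6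
  have e7 : ∑ k ∈ T, c k * (Real.log ‖L2 (bc (F k) f) (d k) (S k) (B k) (2 + τ k * I + ε)‖ /
        Real.log (1 / ε) - if τ k = 0 then (r : ℝ) else 0) = z ε / LL ε := by
    rw [hz]
    simp only
    rw [Finset.sum_div]
    refine Finset.sum_congr rfl fun k _ => ?_
    change c k * (Xk k ε / LL ε - rk k) = _
    field_simp
  rw [e7]
  exact h5

end

end Pool.Agent.W353.TP
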