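import Pool.Agent.H21.L.R_seed8.W353.TP.Hom
import Pool.Agent.H21.L.R_seed8.H921R2.TatePole.Tensor

/-! Relative tensor products of number fields and homomorphisms to prime fields. -/

set_option autoImplicit false

namespace Pool.Agent.W353.TP

open NumberField IsDedekindDomain
open Pool.Agent.H921R2.TatePole (comp' comp'_coe uniform_den restrict_injective extend_hom
  exists_int_mul)
open scoped TensorProduct

section
variable {M : Type} [Fintype M] (F : M → Type) [∀ m, Field (F m)] [∀ m, NumberField (F m)]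
  {A : Type} [CommRing A] [Algebra.IsIntegral ℤ A]

/-- **Homomorphisms from an order in a product of number fields.** -/
theorem homs_bijective (j : A →+* ∀ m, F m) (hinj : Function.Injective j)
    (hlat : ∀ e : (∀ m, F m), ∃ N : ℤ, N ≠ 0 ∧ ∃ a, j a = (N : ∀ m, F m) * e) :
    ∃ N : ℤ, N ≠ 0 ∧ ∀ p : Nat.Primes, ¬ ((p : ℕ) : ℤ) ∣ N →
      Function.Bijective (fun x : (Σ m, (𝓞 (F m) →+* ZMod (p : ℕ))) => x.2.comp (comp' j x.1)) := by
  classical
  -- generators of the rings of integers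
  have hfg : ∀ m, ∃ s : Finset (𝓞 (F m)), Submodule.span ℤ (s : Set (𝓞 (F m))) = ⊤ :=
    fun m => Module.Finite.fg_top
  choose s hs using hfg
  obtain ⟨N, hN0, hN⟩ := uniform_den j hlat
    (κ := M ⊕ (Σ m, {x // x ∈ s m})) (fun k => match k with
      | Sum.inl m => Pi.single m 1
      | Sum.inr ⟨m, x⟩ => Pi.single m ((x : 𝓞 (F m)) : F m))
  have hidem : ∀ m, ∃ a, j a = (N : ∀ m, F m) * Pi.single m 1 := fun m => hN (Sum.inl m)
  have hgen : ∀ m, ∀ b : 𝓞 (F m), ∃ a : A, comp' j m a = (N : 𝓞 (F m)) * b := by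
    intro m b
    have hb : b ∈ Submodule.span ℤ (s m : Set (𝓞 (F m))) := by rw [hs m]; trivial
    induction hb using Submodule.span_induction with
    | mem x hx =>
      obtain ⟨a, ha⟩ := hN (Sum.inr ⟨m, ⟨x, hx⟩⟩)
      refine ⟨a, ?_⟩
      apply RingOfIntegers.ext
      rw [comp'_coe, ha]
      simp
    | zero => exact ⟨0, by simp⟩
    | add x y _ _ hx hy =>
      obtain ⟨a, ha⟩ := hx
      obtain ⟨a', ha'⟩ := hy
      exact ⟨a + a', by rw [map_add, ha, ha', mul_add]⟩
    | smul c x _ hx =>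
      obtain ⟨a, ha⟩ := hx
      refine ⟨c • a, ?_⟩
      rw [map_zsmul, ha, zsmul_eq_mul, zsmul_eq_mul]
      ring
  choose ae hae using hidem
  refine ⟨N, hN0, fun p hp => ?_⟩
  have : Fact (p : ℕ).Prime := ⟨p.prop⟩
  have hNp : ((N : ℤ) : ZMod (p : ℕ)) ≠ 0 := by
    rwa [Ne, ZMod.intCast_zmod_eq_zero_iff_dvd]
  have hone : ∀ m, comp' j m (ae m) = (N : 𝓞 (F m)) := by
    intro m
    apply RingOfIntegers.ext
    rw [comp'_coe, hae]
    simp
  have hzero : ∀ m m', m ≠ m' → comp' j m' (ae m) = 0 := by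
    intro m m' h
    apply RingOfIntegers.ext
    rw [comp'_coe, hae]
    simp [Pi.single_eq_of_ne (Ne.symm h)]
  constructor
  · rintro ⟨m, φ⟩ ⟨m', ψ⟩ h
    have hm : m = m' := by
      by_contra hne
      have h1 := RingHom.congr_fun h (ae m)
      simp only [RingHom.comp_apply] at h1
      rw [hone, hzero m m' hne, map_intCast, map_zero] at h1
      exact hNp h1
    subst hm
    have h2 : φ = ψ := restrict_injective (comp' j m) (hgen m) hp h
    rw [h2]
  · intro φ
    have hex : ∃ m, φ (ae m) ≠ 0 := by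
      by_contra hcon
      have hcon' : ∀ m, φ (ae m) = 0 := by
        intro m
        by_contra h
        exact hcon ⟨m, h⟩
      have hsum : ∑ m, ae m = (N : A) := by
        apply hinj
        rw [map_sum, map_intCast]
        simp only [hae]
        rw [← Finset.mul_sum, Finset.univ_sum_single]
        have : (fun _ => 1 : ∀ m, F m) = 1 := rfl
        rw [this, mul_one]
      have h1 := congrArg φ hsum
      rw [map_sum, map_intCast, Finset.sum_eq_zero fun m _ => hcon' m] at h1
      exact hNp h1.symm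
    obtain ⟨m, hm⟩ := hex
    have hker : RingHom.ker (comp' j m) ≤ RingHom.ker φ := by
      intro a ha
      rw [RingHom.mem_ker] at ha ⊢
      have h1 : j a m = 0 := by rw [← comp'_coe, ha]; rfl
      have h2 : a * ae m = 0 := by
        apply hinj
        rw [map_mul, map_zero, hae]
        funext m'
        simp only [Pi.mul_apply, Pi.zero_apply]
        by_cases h : m' = m
        · subst h; rw [h1, zero_mul]
        · rw [Pi.single_eq_of_ne h, mul_zero, mul_zero]
      have h3 := congrArg φ h2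
      rw [map_mul, map_zero] at h3
      exact (mul_eq_zero.mp h3).resolve_right hm
    obtain ⟨ψ, hψ⟩ := extend_hom (comp' j m) (hgen m) hp φ hker
    exact ⟨⟨m, ψ⟩, hψ⟩

end

section
variable (K F F' : Type) [Field K] [NumberField K] [Field F] [NumberField F] [Algebra K F]
  [Field F'] [NumberField F'] [Algebra K F']

/-- the map `𝓞 F ⊗ 𝓞 F' → F ⊗ F'` over `K` -/
noncomputable def jo : 𝓞 F ⊗[𝓞 K] 𝓞 F' →+* F ⊗[K] F' :=
  ((IsLocalization.algebraTensorEquiv (nonZeroDivisors (𝓞 K)) K F F').symm :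
    F ⊗[𝓞 K] F' →+* F ⊗[K] F').comp
    (Algebra.TensorProduct.map (IsScalarTower.toAlgHom (𝓞 K) (𝓞 F) F)
      (IsScalarTower.toAlgHom (𝓞 K) (𝓞 F') F') : 𝓞 F ⊗[𝓞 K] 𝓞 F' →+* F ⊗[𝓞 K] F')

variable {F F'} in
theorem jo_tmul (x : 𝓞 F) (y : 𝓞 F') : jo K F F' (x ⊗ₜ y) = (x : F) ⊗ₜ (y : F') := by
  unfold jo
  rfl

theorem jo_injective : Function.Injective (jo K F F') := by
  unfold jo
  rw [RingHom.coe_comp]
  refine Function.Injective.comp
    ((IsLocalization.algebraTensorEquiv (nonZeroDivisors (𝓞 K)) K F F').symm.injective) ?_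
  exact TensorProduct.map_injective_of_flat_flat _ _ RingOfIntegers.coe_injective
    RingOfIntegers.coe_injective

instance : Module.Finite (𝓞 K) (𝓞 F ⊗[𝓞 K] 𝓞 F') := inferInstance

instance isIntegral_tensor : Algebra.IsIntegral ℤ (𝓞 F ⊗[𝓞 K] 𝓞 F') := by
  have h1 : Algebra.IsIntegral (𝓞 K) (𝓞 F ⊗[𝓞 K] 𝓞 F') := Algebra.IsIntegral.of_finite _ _
  exact Algebra.IsIntegral.trans (𝓞 K)

theorem jo_lattice (e : F ⊗[K] F') :
    ∃ N : ℤ, N ≠ 0 ∧ ∃ a, jo K F F' a = (N : F ⊗[K] F') * e := by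
  induction e using TensorProduct.induction_on with
  | zero => exact ⟨1, one_ne_zero, 0, by simp⟩
  | tmul x y =>
    obtain ⟨N, hN, a, ha⟩ := exists_int_mul F x
    obtain ⟨N', hN', a', ha'⟩ := exists_int_mul F' y
    refine ⟨N * N', mul_ne_zero hN hN', a ⊗ₜ a', ?_⟩
    rw [jo_tmul, ha, ha']
    have h1 : ((N : F) * x) ⊗ₜ[K] ((N' : F') * y) = (N * N' : ℤ) • (x ⊗ₜ[K] y) := by
      rw [← zsmul_eq_mul, ← zsmul_eq_mul, mul_smul, ← TensorProduct.smul_tmul',
        TensorProduct.tmul_smul]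
    rw [h1, zsmul_eq_mul]
  | add x y hx hy =>
    obtain ⟨N, hN, a, ha⟩ := hx
    obtain ⟨N', hN', a', ha'⟩ := hy
    refine ⟨N * N', mul_ne_zero hN hN', (N' : ℤ) • a + N • a', ?_⟩
    rw [map_add, map_zsmul, map_zsmul, ha, ha', zsmul_eq_mul, zsmul_eq_mul]
    push_cast
    ring

instance artinK : IsArtinianRing (F ⊗[K] F') := IsArtinianRing.of_finite K _

instance reducedK : IsReduced (F ⊗[K] F') := by
  have h0 : Algebra.FormallyUnramified K F' := Algebra.FormallyUnramified.of_isSeparable K F'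
  have : Algebra.FormallyUnramified F (F ⊗[K] F') := inferInstance
  exact Algebra.FormallyUnramified.isReduced_of_field F (F ⊗[K] F')

/-- the simple factors of `F ⊗ F'` -/
abbrev Fac (m : MaximalSpectrum (F ⊗[K] F')) : Type := (F ⊗[K] F') ⧸ m.asIdeal

noncomputable instance facField (m : MaximalSpectrum (F ⊗[K] F')) : Field (Fac K F F' m) :=
  Ideal.Quotient.field m.asIdeal

instance facFinK (m : MaximalSpectrum (F ⊗[K] F')) : Module.Finite K (Fac K F F' m) :=
  Module.Finite.of_surjective (Ideal.Quotient.mkₐ K m.asIdeal).toLinearMap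
    (Ideal.Quotient.mkₐ_surjective K m.asIdeal)

instance facNF (m : MaximalSpectrum (F ⊗[K] F')) : NumberField (Fac K F F' m) :=
  NumberField.of_module_finite K (Fac K F F' m)

end

end Pool.Agent.W353.TP
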