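import Pool.Agent.H21.L.R_seed8.W353.TP.CS
import Pool.Agent.H21.L.R_seed8.H126T.End

/-! Transfer of the correlations of the twisted curves over an extension to the base field. -/

set_option autoImplicit false

namespace Pool.Agent.W353.TP

open Complex Filter Topology ComplexConjugate NumberField IsDedekindDomain Pool.Agent.H341R2
  Asymptotics Polynomial
open Pool.Agent.H921R2.TatePole (nm two_le_nm R hc R_eq_hc R_le kerPrime hom_finite C0)
open Pool.Agent.H126T (pairs bb bb_pos tt ww norm_tt norm_ww Sv)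

section
variable {K F : Type} [Field K] [NumberField K] [Field F] [NumberField F]

/-- character sum over a prime field -/
noncomputable def SH (f : (𝓞 K)[X]) (x : HX K) : ℤ :=
  haveI : Fact (x.1 : ℕ).Prime := ⟨x.1.2⟩
  ∑ y : ZMod (x.1 : ℕ), quadraticChar (ZMod (x.1 : ℕ)) ((f.map x.2).eval y)

theorem Sv_ker (ι : 𝓞 K →+* 𝓞 F) (f : (𝓞 K)[X]) (p : Nat.Primes) (ψ : 𝓞 F →+* ZMod (p : ℕ)) :
    Sv (f.map ι) (kerPrime p ψ).1.1 = SH f ⟨p, ψ.comp ι⟩ := by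
  have : Fact (p : ℕ).Prime := ⟨p.2⟩
  let e : 𝓞 F ⧸ (kerPrime p ψ).1.1.asIdeal ≃+* ZMod (p : ℕ) :=
    RingHom.quotientKerEquivOfSurjective (ZMod.ringHom_surjective ψ)
  have he : ∀ a : 𝓞 F, e (Ideal.Quotient.mk _ a) = ψ a := fun a => rfl
  unfold Sv SH
  refine Fintype.sum_equiv e.toEquiv _ _ fun x => ?_
  rw [← quadraticChar_congr e]
  congr 1
  change e _ = (f.map (ψ.comp ι)).eval (e x)
  have h1 : (f.map (ψ.comp ι)) =
      (((f.map ι).map (Ideal.Quotient.mk (kerPrime p ψ).1.1.asIdeal)).map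
        (e : 𝓞 F ⧸ (kerPrime p ψ).1.1.asIdeal →+* ZMod (p : ℕ))) := by
    rw [Polynomial.map_map, Polynomial.map_map]
    congr 1
  rw [h1]
  exact ((Polynomial.eval_map (e : 𝓞 F ⧸ (kerPrime p ψ).1.1.asIdeal →+* ZMod (p : ℕ)) _).trans
    (Polynomial.eval₂_hom (e : 𝓞 F ⧸ (kerPrime p ψ).1.1.asIdeal →+* ZMod (p : ℕ)) x)).symm

open Classical in
/-- the untwisted coefficients over the base field -/
noncomputable def ttH {r : ℕ} (f : Fin r → (𝓞 K)[X]) (j : Fin r × Fin r) (x : HX K) : ℂ :=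
  if x.2 2 ≠ 0 ∧ x.2 (f j.1).leadingCoeff ≠ 0 ∧ x.2 (f j.2).leadingCoeff ≠ 0
    then ((SH (f j.1) x * SH (f j.2) x : ℤ) : ℂ) * ((x.1 : ℕ) : ℂ)⁻¹ else 0

theorem mem_ker_iff (p : Nat.Primes) (ψ : 𝓞 F →+* ZMod (p : ℕ)) (a : 𝓞 F) :
    a ∈ (kerPrime p ψ).1.1.asIdeal ↔ ψ a = 0 := Iff.rfl

theorem tt_ker {r : ℕ} (ι : 𝓞 K →+* 𝓞 F) (hι : Function.Injective ι) (f : Fin r → (𝓞 K)[X])
    (j : Fin r × Fin r) (p : Nat.Primes) (ψ : 𝓞 F →+* ZMod (p : ℕ)) :
    tt (fun i => (f i).map ι) j (kerPrime p ψ).1.1 = ttH f j ⟨p, ψ.comp ι⟩ := by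
  unfold tt ttH
  have h1 : ((2 : 𝓞 F) ∉ (kerPrime p ψ).1.1.asIdeal ∧
      ((f j.1).map ι).leadingCoeff ∉ (kerPrime p ψ).1.1.asIdeal ∧
      ((f j.2).map ι).leadingCoeff ∉ (kerPrime p ψ).1.1.asIdeal) ↔
      ((ψ.comp ι) 2 ≠ 0 ∧ (ψ.comp ι) (f j.1).leadingCoeff ≠ 0 ∧
        (ψ.comp ι) (f j.2).leadingCoeff ≠ 0) := by
    rw [mem_ker_iff, mem_ker_iff, mem_ker_iff, Polynomial.leadingCoeff_map_of_injective hι,
      Polynomial.leadingCoeff_map_of_injective hι, RingHom.comp_apply, RingHom.comp_apply,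
      RingHom.comp_apply, map_ofNat ι]
  by_cases h : (ψ.comp ι) 2 ≠ 0 ∧ (ψ.comp ι) (f j.1).leadingCoeff ≠ 0 ∧
        (ψ.comp ι) (f j.2).leadingCoeff ≠ 0
  · rw [if_pos (h1.2 h), if_pos h, Sv_ker, Sv_ker, nm_kerPrime]
  · rw [if_neg (fun h' => h (h1.1 h')), if_neg h]

theorem norm_ttH {r : ℕ} {f : Fin r → (𝓞 K)[X]} (hodd : ∀ i, Odd (f i).natDegree)
    (h3 : ∀ i, 3 ≤ (f i).natDegree) (j : Fin r × Fin r) (x : HX K) : ‖ttH f j x‖ ≤ bb f j := by
  rcases x with ⟨p, φ⟩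
  have h1 := tt_ker (RingHom.id (𝓞 K)) Function.injective_id f j p φ
  rw [RingHom.comp_id] at h1
  have h2 : (fun i => (f i).map (RingHom.id (𝓞 K))) = f := by
    funext i
    exact Polynomial.map_id
  rw [h2] at h1
  rw [← h1]
  exact norm_tt hodd h3 j _

end

section
variable {K F : Type} [Field K] [NumberField K] [Field F] [NumberField F] [Algebra K F]

/-- base change of the polynomials -/
noncomputable def bc (F : Type) [Field F] [NumberField F] [Algebra K F] {r : ℕ}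
    (f : Fin r → (𝓞 K)[X]) (i : Fin r) : (𝓞 F)[X] := (f i).map (algebraMap (𝓞 K) (𝓞 F))

theorem alg_inj : Function.Injective (algebraMap (𝓞 K) (𝓞 F)) :=
  FaithfulSMul.algebraMap_injective (𝓞 K) (𝓞 F)

theorem bc_natDegree {r : ℕ} (f : Fin r → (𝓞 K)[X]) (i : Fin r) :
    (bc F f i).natDegree = (f i).natDegree :=
  Polynomial.natDegree_map_eq_of_injective alg_inj _

theorem bc_bb {r : ℕ} (f : Fin r → (𝓞 K)[X]) (j : Fin r × Fin r) : bb (bc F f) j = bb f j := by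
  unfold bb
  rw [bc_natDegree, bc_natDegree]

/-- the twists, as functions on the homomorphisms of the base -/
noncomputable def vv (K : Type) {F : Type} [Field K] [NumberField K] [Field F] [NumberField F]
    [Algebra K F] {r : ℕ} (d : Fin r → 𝓞 F) (τ : ℝ) (j : Fin r × Fin r) (x : HX K) : ℂ :=
  ((push K (qh (d j.1 * d j.2)) x : ℝ) : ℂ) * ((x.1 : ℕ) : ℂ) ^ ((τ : ℂ) * I)

theorem norm_vv {r : ℕ} (d : Fin r → 𝓞 F) (τ : ℝ) (j : Fin r × Fin r) (x : HX K) :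
    ‖vv K d τ j x‖ ≤ Module.finrank ℚ F := by
  unfold vv
  rw [norm_mul]
  have h1 : ‖((x.1 : ℕ) : ℂ) ^ ((τ : ℂ) * I)‖ = 1 := (sysH K).norm_cpow_I x τ
  rw [h1, mul_one, Complex.norm_real, Real.norm_eq_abs]
  have := push_abs_le (K := K) (qh_abs (d j.1 * d j.2)) x
  rwa [mul_one] at this

/-- **Transfer of the correlations to the base field.** -/
theorem corr_transfer {r : ℕ} {f : Fin r → (𝓞 K)[X]} (hodd : ∀ i, Odd (f i).natDegree)
    (h3 : ∀ i, 3 ≤ (f i).natDegree) (d : Fin r → 𝓞 F) (τ : ℝ) (j : Fin r × Fin r) :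
    (fun ε => ((sysK F).E ε fun v => (tt (bc F f) j v * conj (ww d τ j v)).re) -
      (sysH K).E ε fun x : HX K => (ttH f j x * conj (vv K d τ j x)).re) =o[𝓝[>] 0] LL := by
  classical
  apply bdd_isLittleO
  have hodd' : ∀ i, Odd (bc F f i).natDegree := fun i => by rw [bc_natDegree]; exact hodd i
  have h3' : ∀ i, 3 ≤ (bc F f i).natDegree := fun i => by rw [bc_natDegree]; exact h3 i
  have hb : ∀ v, |(tt (bc F f) j v * conj (ww d τ j v)).re| ≤ bb (bc F f) j := by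
    intro v
    refine (Complex.abs_re_le_norm _).trans ?_
    rw [norm_mul, Complex.norm_conj]
    exact (mul_le_of_le_one_right (norm_nonneg _) (norm_ww _ _ j v)).trans
      (norm_tt hodd' h3' j v)
  refine ⟨bb (bc F f) j * Module.finrank ℚ F * C0, ?_⟩
  filter_upwards [self_mem_nhdsWithin] with ε hε
  have hε' : (0 : ℝ) < ε := hε
  have h1 := E_H hb hε'
  rw [EH_push (K := K) hε' (fun x => hb _)] at h1
  have h2 : push K (fun x : HX F => (tt (bc F f) j (kerPrime x.1 x.2).1.1 *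
      conj (ww d τ j (kerPrime x.1 x.2).1.1)).re) =
      fun x : HX K => (ttH f j x * conj (vv K d τ j x)).re := by
    funext x
    rcases x with ⟨p, φ⟩
    unfold push vv push
    have h4 : ∀ ψ ∈ Finset.univ.filter (fun ψ : 𝓞 F →+* ZMod (p : ℕ) => res K ψ = φ),
        (tt (bc F f) j (kerPrime p ψ).1.1 * conj (ww d τ j (kerPrime p ψ).1.1)).re =
        (ttH f j ⟨p, φ⟩ * conj (((p : ℕ) : ℂ) ^ ((τ : ℂ) * I))).re *
          qh (d j.1 * d j.2) ⟨p, ψ⟩ := by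
      intro ψ hψ
      have hψ' := (Finset.mem_filter.1 hψ).2
      have e1 : tt (bc F f) j (kerPrime p ψ).1.1 = ttH f j ⟨p, φ⟩ := by
        rw [← hψ']
        exact tt_ker (algebraMap (𝓞 K) (𝓞 F)) alg_inj f j p ψ
      rw [e1]
      unfold ww
      rw [nm_kerPrime, map_mul, qh_chi]
      have e2 : conj ((chi (d j.1 * d j.2) (kerPrime p ψ).1.1 : ℂ)) =
          ((chi (d j.1 * d j.2) (kerPrime p ψ).1.1 : ℝ) : ℂ) := by
        have : (chi (d j.1 * d j.2) (kerPrime p ψ).1.1 : ℂ) =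
            ((chi (d j.1 * d j.2) (kerPrime p ψ).1.1 : ℝ) : ℂ) := by push_cast; rfl
        rw [this, Complex.conj_ofReal]
      rw [e2, mul_left_comm, Complex.re_ofReal_mul, mul_comm]
    rw [Finset.sum_congr rfl h4, ← Finset.mul_sum, map_mul, Complex.conj_ofReal,
      mul_left_comm, Complex.re_ofReal_mul, mul_comm]
  have h5 : ∀ y : ℝ, y = (sysH K).E ε (push K (fun x : HX F => (tt (bc F f) j
      (kerPrime x.1 x.2).1.1 * conj (ww d τ j (kerPrime x.1 x.2).1.1)).re)) →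
      y = (sysH K).E ε fun x : HX K => (ttH f j x * conj (vv K d τ j x)).re := by
    intro y hy
    rw [hy, h2]
  rw [← h5 _ rfl]
  exact h1

/-- the Gram matrix at the level of homomorphisms -/
theorem gram_H {F' : Type} [Field F'] [NumberField F'] [Algebra K F'] {r : ℕ}
    {d : Fin r → 𝓞 F} {e : Fin r → 𝓞 F'} (hd : ∀ i, d i ≠ 0) (he : ∀ i, e i ≠ 0) (τ σ : ℝ)
    (j : Fin r × Fin r) [Decidable (τ = σ)] :
    (fun ε => ((sysH K).E ε fun x : HX K => (vv K d τ j x * conj (vv K e σ j x)).re) -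
      (if τ = σ then (inum K F F' ((d j.1 * d j.2 : 𝓞 F) : F) ((e j.1 * e j.2 : 𝓞 F') : F') : ℝ)
        else 0) * LL ε) =o[𝓝[>] 0] LL := by
  classical
  set c : ℝ := if τ = σ then (inum K F F' ((d j.1 * d j.2 : 𝓞 F) : F)
    ((e j.1 * e j.2 : 𝓞 F') : F') : ℝ) else 0 with hc
  have h1 := gram_low (K := K) (mul_ne_zero (hd j.1) (hd j.2)) (mul_ne_zero (he j.1) (he j.2))
    (σ - τ)
  have hc' : (if σ - τ = 0 then (inum K F F' ((d j.1 * d j.2 : 𝓞 F) : F)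
    ((e j.1 * e j.2 : 𝓞 F') : F') : ℝ) else 0) = c := by
    rw [hc]
    by_cases h : τ = σ
    · rw [if_pos h, if_pos (by rw [h, sub_self])]
    · rw [if_neg h, if_neg (fun h' => h (sub_eq_zero.1 h').symm)]
  rw [hc'] at h1
  have h2 := pnegl_isLittleO h1
  have hpt : ∀ x : HX K, (vv K d τ j x * conj (vv K e σ j x)).re =
      push K (qh (d j.1 * d j.2)) x * push K (qh (e j.1 * e j.2)) x *
        ((((x.1 : ℕ) : ℂ) ^ (-(((σ - τ : ℝ) : ℂ) * I))).re) := by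
    intro x
    have h0 : (((x.1 : ℕ) : ℕ) : ℂ) ≠ 0 := (sysH K).N_ne x
    have hcj : conj (((x.1 : ℕ) : ℂ) ^ ((σ : ℂ) * I)) = ((x.1 : ℕ) : ℂ) ^ (-((σ : ℂ) * I)) :=
      (sysH K).conj_cpow_I x σ
    unfold vv
    rw [map_mul, Complex.conj_ofReal, hcj]
    have e1 : (((push K (qh (d j.1 * d j.2)) x : ℝ) : ℂ) * ((x.1 : ℕ) : ℂ) ^ ((τ : ℂ) * I) *
        (((push K (qh (e j.1 * e j.2)) x : ℝ) : ℂ) * ((x.1 : ℕ) : ℂ) ^ (-((σ : ℂ) * I)))) =
        ((push K (qh (d j.1 * d j.2)) x * push K (qh (e j.1 * e j.2)) x : ℝ) : ℂ) *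
          ((x.1 : ℕ) : ℂ) ^ (-(((σ - τ : ℝ) : ℂ) * I)) := by
      have e2 : (-(((σ - τ : ℝ) : ℂ) * I)) = (τ : ℂ) * I + -((σ : ℂ) * I) := by
        push_cast
        ring
      rw [e2, Complex.cpow_add _ _ h0]
      push_cast
      ring
    rw [e1, Complex.re_ofReal_mul]
  have hb : ∀ x : HX K, |(vv K d τ j x * conj (vv K e σ j x)).re| ≤
      (Module.finrank ℚ F : ℝ) * Module.finrank ℚ F' := by
    intro x
    refine (Complex.abs_re_le_norm _).trans ?_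
    rw [norm_mul, Complex.norm_conj]
    exact mul_le_mul (norm_vv d τ j x) (norm_vv e σ j x) (norm_nonneg _) (by positivity)
  have h3 : (fun ε => c * (lam ε - LL ε)) =o[𝓝[>] 0] LL := lam0_sub.const_mul_left c
  refine (h2.add h3).congr' ?_ (EventuallyEq.refl _ _)
  filter_upwards [self_mem_nhdsWithin] with ε hε
  have hε' : (0 : ℝ) < ε := hε
  have e3 := EH_eq (K := K) hε' hb
  have e4 : ((sysH K).E ε fun x : HX K => (vv K d τ j x * conj (vv K e σ j x)).re) =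
      E ε fun p => ∑ u : 𝓞 K →+* ZMod (p : ℕ),
        (vv K d τ j ⟨p, u⟩ * conj (vv K e σ j ⟨p, u⟩)).re := e3
  have hb1 : ∀ p : Nat.Primes, |∑ u : 𝓞 K →+* ZMod (p : ℕ),
      (vv K d τ j ⟨p, u⟩ * conj (vv K e σ j ⟨p, u⟩)).re| ≤
      Module.finrank ℚ K * ((Module.finrank ℚ F : ℝ) * Module.finrank ℚ F') := by
    intro p
    refine (Finset.abs_sum_le_sum_abs _ _).trans ?_
    refine (Finset.sum_le_sum fun u _ => hb _).trans ?_
    rw [Finset.sum_const, nsmul_eq_mul, Finset.card_univ]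
    exact mul_le_mul_of_nonneg_right (by exact_mod_cast card_hom_le p) (by positivity)
  have e5 : (E ε fun p => (∑ u : 𝓞 K →+* ZMod (p : ℕ),
      push K (qh (d j.1 * d j.2)) ⟨p, u⟩ * push K (qh (e j.1 * e j.2)) ⟨p, u⟩ *
      (((p : ℕ) : ℂ) ^ (-(((σ - τ : ℝ) : ℂ) * I))).re) - c) =
      (E ε fun p => ∑ u : 𝓞 K →+* ZMod (p : ℕ),
        (vv K d τ j ⟨p, u⟩ * conj (vv K e σ j ⟨p, u⟩)).re) - c * lam ε := by
    have e6 : (fun p : Nat.Primes => (∑ u : 𝓞 K →+* ZMod (p : ℕ),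
        push K (qh (d j.1 * d j.2)) ⟨p, u⟩ * push K (qh (e j.1 * e j.2)) ⟨p, u⟩ *
        (((p : ℕ) : ℂ) ^ (-(((σ - τ : ℝ) : ℂ) * I))).re) - c) =
        fun p : Nat.Primes => (∑ u : 𝓞 K →+* ZMod (p : ℕ),
          (vv K d τ j ⟨p, u⟩ * conj (vv K e σ j ⟨p, u⟩)).re) + (-c) * (1 : ℝ) := by
      funext p
      rw [mul_one, ← sub_eq_add_neg]
      congr 1
      exact Finset.sum_congr rfl fun u _ => (hpt ⟨p, u⟩).symm
    rw [e6, E_add hε' hb1 (B' := |c|) (fun p => by rw [mul_one, abs_neg]), E_const_mul]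
    have e7 : (E ε fun _ => (1 : ℝ)) = lam ε := by
      unfold E lam
      exact tsum_congr fun p => one_mul _
    rw [e7]
    ring
  rw [e5, e4]
  ring

end

end Pool.Agent.W353.TP
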